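import Pool.Agent.Q146.Octa

set_option autoImplicit false

namespace Pool.Agent.Results.MP_b59a08_co.Quadruples

open Q146.Octa

/-- Q2 of MP_b59a08_co has a negative answer: there is no `k₄` such that for every `k ≥ k₄` every
packing of `n_k = (2 k ^ 3 + k) / 3` unit balls in three-space has at most
`q_k = 4 / 3 * (k - 2) * (k - 1) * k` touching quadruples.  In fact for EVERY `k ≥ 18` some packing
of `n_k` unit balls has more than `q_k` touching quadruples. -/
theorem result :
    (¬ ∃ k₄ : ℕ, 0 < k₄ ∧ ∀ k : ℕ, k₄ ≤ k → ∀ C : Finset E3, IsPacking C → C.card = nk k →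
      (touching 4 C : ℚ) ≤ qk k) ∧
    ∀ k : ℕ, 18 ≤ k → ∃ C : Finset E3, IsPacking C ∧ C.card = nk k ∧
      qk k < (touching 4 C : ℚ) := by
  refine ⟨?_, fun k hk => quadruples hk⟩
  rintro ⟨k₄, -, h⟩
  obtain ⟨C, h1, h2, h3⟩ := quadruples (k := max k₄ 18) (le_max_right _ _)
  exact absurd (h _ (le_max_left _ _) C h1 h2) (not_le.2 h3)

end Pool.Agent.Results.MP_b59a08_co.Quadruples
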