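import Pool.Agent.Q146.Octa

set_option autoImplicit false

namespace Pool.Agent.Results.MP_b59a08_co.Triplets

open Q146.Octa

/-- Q1 of MP_b59a08_co has a negative answer: there is no `k₃` such that for every `k ≥ k₃` every
packing of `n_k = (2 k ^ 3 + k) / 3` unit balls in three-space has at most
`t_k = 4 / 3 * (k - 1) * k * (4 * k - 5)` touching triplets.  In fact for EVERY `k ≥ 56` some packing
of `n_k` unit balls has more than `t_k` touching triplets. -/
theorem result :
    (¬ ∃ k₃ : ℕ, 0 < k₃ ∧ ∀ k : ℕ, k₃ ≤ k → ∀ C : Finset E3, IsPacking C → C.card = nk k →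
      (touching 3 C : ℚ) ≤ tk k) ∧
    ∀ k : ℕ, 56 ≤ k → ∃ C : Finset E3, IsPacking C ∧ C.card = nk k ∧
      tk k < (touching 3 C : ℚ) := by
  refine ⟨?_, fun k hk => triplets hk⟩
  rintro ⟨k₃, -, h⟩
  obtain ⟨C, h1, h2, h3⟩ := triplets (k := max k₃ 56) (le_max_right _ _)
  exact absurd (h _ (le_max_left _ _) C h1 h2) (not_le.2 h3)

end Pool.Agent.Results.MP_b59a08_co.Triplets
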